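import Pool.Agent.W434.BW.StmC

/-! BW-NC: solutions of the block instance (with the hypothesis that `A` is nonempty). -/

set_option autoImplicit false

namespace Pool.Agent.W933.BW

open Pool.Agent.W434.BW

/-- `S_nc` for nonempty `A` -/
def S_nc' : Prop :=
  ∀ (Ω1 Ω2 : Type) (ar1 : Ω1 → ℕ) (ar2 : Ω2 → ℕ) (A : Type) [Finite A] [Nonempty A]
    (u1 : Tm ar1 (Fin 3)) (u2 : Tm ar2 (Fin 3)) (a1 : Alg ar1 A) (a2 : Alg ar2 A)
    (D : Blk A) [Finite D.B] [Nonempty D.B], Two u1 u2 a1 a2 → D.Ok a1 a2 →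
    ∃ (y : Fin D.N → A → A → A) (g : ∀ b, (Fin (D.n b) → A) → A),
      (∀ b, g b ∈ D.F b ∧ g b ∈ D.F' b) ∧ ∀ b p, minor (g b) p = y (D.idx b p)

section

variable {Ω1 Ω2 : Type} {ar1 : Ω1 → ℕ} {ar2 : Ω2 → ℕ} {A : Type} {a1 : Alg ar1 A}
  {a2 : Alg ar2 A} {D : Blk A}

theorem exists_ne (h : D.Ok a1 a2) (b : D.B) (p : Fin (D.n b)) : ∃ q : Fin (D.n b), p ≠ q := by
  have h2 := h.two b
  have : Nontrivial (Fin (D.n b)) := Fin.nontrivial_iff_two_le.2 h2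
  obtain ⟨q, hq⟩ := _root_.exists_ne p
  exact ⟨q, hq.symm⟩

theorem ne_F (h : D.Ok a1 a2) (b : D.B) : (D.F b).Nonempty := by
  have h2 := h.two b
  obtain ⟨q, hq⟩ := exists_ne h b ⟨0, by omega⟩
  obtain ⟨c, d, hcd⟩ := h.ne
  obtain ⟨g, hg, _⟩ := h.k1 b _ q hq c d hcd
  exact ⟨g, hg⟩

theorem sub_idx (h : D.Ok a1 a2) [Nonempty D.B] (s t : A) :
    Sub a1 {a | ∃ c d, D.Cp c d ∧ a = c s t} := by
  intro ω x hx
  obtain ⟨b⟩ := ‹Nonempty D.B›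
  have h2 := h.two b
  set p : Fin (D.n b) := ⟨0, by omega⟩ with hp
  obtain ⟨q, hq⟩ := exists_ne h b p
  choose c d hcd hx using hx
  choose g hg hgp hgq using fun i => h.k1 b p q hq (c i) (d i) (hcd i)
  have hG := h.sub1 b ω g hg
  refine ⟨minor (piA a1 (Fin (D.n b) → A) ω g) p, minor (piA a1 (Fin (D.n b) → A) ω g) q,
    h.k2 b _ hG p q hq, ?_⟩
  show a1 ω x = a1 ω fun i => g i (fun i => if i = p then t else s)
  congr 1
  funext i
  rw [hx i]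
  exact (congrFun (congrFun (hgp i) s) t).symm

theorem inst_ok [Nonempty A] [Nonempty D.B] (h : D.Ok a1 a2) : (D.inst).Ok a1 a2 where
  ne := by
    rintro (y | ⟨b, u⟩)
    · obtain ⟨c, d, hcd⟩ := h.ne
      exact ⟨c y.2.1 y.2.2, c, d, hcd, rfl⟩
    · obtain ⟨g, hg⟩ := ne_F h b
      exact ⟨g u, g, hg, rfl⟩
  neR := by
    rintro (⟨b, _ | _⟩ | z)
    · obtain ⟨g, hg⟩ := ne_F h b
      obtain ⟨a⟩ := ‹Nonempty A›
      obtain ⟨g', hg', _⟩ := (h.pair b (fun _ => a) (fun _ => a) _ _).1 ⟨g, hg, rfl, rfl⟩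
      exact ⟨g', hg'⟩
    · exact ne_F h b
    · obtain ⟨c, d, hcd⟩ := h.ne
      exact ⟨fun _ => c z.2.2.1 z.2.2.2, rfl, c, d, hcd, rfl⟩
  subP := by
    rintro (y | ⟨b, u⟩)
    · exact sub_idx h y.2.1 y.2.2
    · intro ω x hx
      choose g hg hx using hx
      refine ⟨_, h.sub1 b ω g hg, ?_⟩
      show a1 ω x = a1 ω fun i => g i u
      congr 1
      funext i
      exact hx i
  sub1 := by
    rintro (⟨b, _ | _⟩ | z) hk
    · exact absurd hk (by simp [Blk.inst])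
    · exact h.sub1 b
    · intro ω x hx
      refine ⟨?_, ?_⟩
      · show a1 ω (fun i => x i false) = a1 ω (fun i => x i true)
        congr 1
        funext i
        exact (hx i).1
      · exact sub_idx h z.2.2.1 z.2.2.2 ω (fun i => x i false) (fun i => (hx i).2)
  sub2 := by
    rintro (⟨b, _ | _⟩ | z) hk
    · exact h.sub2 b
    · exact absurd rfl hk
    · exact absurd trivial hk
  dom := by
    rintro (⟨b, _ | _⟩ | ⟨b, p, s, t⟩) r hr i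
    · obtain ⟨g, hg, hgi, _⟩ := (h.pair b i i _ _).2 ⟨r, hr, rfl, rfl⟩
      exact ⟨g, hg, hgi.symm⟩
    · exact ⟨r, hr, rfl⟩
    · obtain ⟨h1, c, d, hcd, h2⟩ := hr
      rcases i with _ | _
      · exact ⟨c, d, hcd, h2⟩
      · obtain ⟨q, hq⟩ := exists_ne h b p
        obtain ⟨g, hg, hgp, _⟩ := h.k1 b p q hq c d hcd
        refine ⟨g, hg, ?_⟩
        rw [← h1]
        rw [h2, ← hgp]
        rfl
  ext := by
    rintro (⟨b, _ | _⟩ | ⟨b, p, s, t⟩) i a ha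
    · obtain ⟨g, hg, hga⟩ := ha
      obtain ⟨g', hg', hgi, _⟩ := (h.pair b i i _ _).1 ⟨g, hg, rfl, rfl⟩
      exact ⟨g', hg', hgi.trans hga.symm⟩
    · obtain ⟨g, hg, hga⟩ := ha
      exact ⟨g, hg, hga.symm⟩
    · rcases i with _ | _
      · exact ⟨fun _ => a, ⟨rfl, ha⟩, rfl⟩
      · obtain ⟨g, hg, hga⟩ := ha
        obtain ⟨q, hq⟩ := exists_ne h b p
        exact ⟨fun _ => a, ⟨rfl, minor g p, minor g q, h.k2 b g hg p q hq, hga⟩, rfl⟩

theorem inst_qc (hs : S_sp) (h : D.Ok a1 a2) : D.inst.sys.Qc := by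
  intro s π ρ hπ hρ
  refine ⟨0, fun j _ a b hab => hs Ω1 Ω2 ar1 ar2 A a1 a2 D h s _ ?_ a b hab⟩
  rw [Sys.isPath_append]
  refine ⟨_, hπ, Sys.isPath_rep _ _ _ ?_ j⟩
  rw [Sys.isPath_append]
  exact ⟨_, hρ, hπ⟩

instance finι [Finite A] (k : D.K) : Finite (D.ι k) := by
  rcases k with p | z
  · exact inferInstanceAs (Finite (Fin (D.n p.1) → A))
  · exact inferInstanceAs (Finite Bool)

end

theorem nc (h : S_GT) (hs : S_sp) : S_nc' := by
  intro Ω1 Ω2 ar1 ar2 A _ _ u1 u2 a1 a2 D _ _ hT hD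
  obtain ⟨f, hf⟩ := h Ω1 Ω2 ar1 ar2 D.V D.K A D.ι D.inst u1 u2 a1 a2 hT (inst_ok hD) (inst_qc hs hD)
  refine ⟨fun j s t => f (.inl (j, s, t)), fun b u => f (.inr ⟨b, u⟩), ?_, ?_⟩
  · intro b
    exact ⟨hf (.inl (b, true)), hf (.inl (b, false))⟩
  · intro b p
    funext s t
    exact (hf (.inr ⟨b, p, s, t⟩)).1.symm

end Pool.Agent.W933.BW
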